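import Mathlib

/-! # Restricted sums in `ℤ/p`: counterexamples -/

set_option autoImplicit false

namespace Pool.Agent.X185.RS

open Finset

/-- `A +_F B`: the sums `a + b` with `a ∈ A`, `b ∈ B` and `(a, b) ∉ F`. -/
def restrictedSum {p : ℕ} (A B : Finset (ZMod p)) (F : Finset (ZMod p × ZMod p)) :
    Finset (ZMod p) :=
  ((A ×ˢ B).filter (fun x => x ∉ F)).image (fun x => x.1 + x.2)

/-- The maximum degree of `F` is at most `d`. -/
def DegLe {p : ℕ} (F : Finset (ZMod p × ZMod p)) (d : ℕ) : Prop :=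
  (∀ a, (F.filter (fun x => x.1 = a)).card ≤ d) ∧ (∀ b, (F.filter (fun x => x.2 = b)).card ≤ d)

/-- the integers that give the set -/
def Q (w N y : ℕ) : Prop :=
  y ≤ w ∨ ∃ j, 1 ≤ j ∧ j < N ∧ (y = w - 1 + w * j ∨ y = w + w * j)

theorem Q_lt {w N y : ℕ} (hw : 4 ≤ w) (hN : 2 ≤ N) (h : Q w N y) : y < w * N + (w - 1) := by
  have h2 : w * 2 ≤ w * N := Nat.mul_le_mul_left _ hN
  rcases h with h | ⟨j, _, hj, h⟩
  · omega
  · have h3 : w * (j + 1) ≤ w * N := Nat.mul_le_mul_left _ hj
    rw [mul_add, mul_one] at h3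
    rcases h with h | h <;> omega

/-- Three partners for each element. -/
theorem three {w N y : ℕ} (hw : 4 ≤ w) (hN : 2 ≤ N) (h : Q w N y) :
    ∃ b₁ b₂ b₃ : ℕ, b₁ ≠ b₂ ∧ b₁ ≠ b₃ ∧ b₂ ≠ b₃ ∧ Q w N b₁ ∧ Q w N b₂ ∧ Q w N b₃ ∧
      ∀ b, (b = b₁ ∨ b = b₂ ∨ b = b₃) → ∃ s, (s = 0 ∨ s = w - 1 ∨ s = w ∨ s = w + 1) ∧
        (y + b = s ∨ y + b = w * N + (w - 1) + s) := by
  rcases h with h | ⟨j, hj1, hjN, h⟩
  · rcases Nat.eq_zero_or_pos y with rfl | hy
    · refine ⟨0, w - 1, w, by omega, by omega, by omega, Or.inl (by omega), Or.inl (by omega),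
        Or.inl le_rfl, ?_⟩
      rintro b (rfl | rfl | rfl)
      · exact ⟨0, by simp, by simp⟩
      · exact ⟨w - 1, by simp, by simp⟩
      · exact ⟨b, by simp, by simp⟩
    · rcases Nat.lt_or_ge y w with hyw | hyw
      · refine ⟨w - 1 - y, w - y, w + 1 - y, by omega, by omega, by omega, Or.inl (by omega),
          Or.inl (by omega), Or.inl (by omega), ?_⟩
        rintro b (rfl | rfl | rfl)
        · exact ⟨w - 1, by simp, Or.inl (by omega)⟩
        · exact ⟨w, by simp, Or.inl (by omega)⟩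
        · exact ⟨w + 1, by simp, Or.inl (by omega)⟩
      · obtain rfl : y = w := le_antisymm h hyw
        obtain ⟨M, rfl⟩ : ∃ M, N = M + 2 := ⟨N - 2, by omega⟩
        refine ⟨0, 1, y - 1 + y * (M + 1), by omega, ?_, ?_, Or.inl (by omega),
          Or.inl (by omega), Or.inr ⟨M + 1, by omega, by omega, Or.inl rfl⟩, ?_⟩
        · have : 0 < y * (M + 1) := by positivity
          omega
        · have : y * 1 ≤ y * (M + 1) := Nat.mul_le_mul_left _ (by omega)
          omega
        · rintro b (rfl | rfl | rfl)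
          · exact ⟨y, by simp, by simp⟩
          · exact ⟨y + 1, by simp, Or.inl rfl⟩
          · refine ⟨0, by simp, Or.inr ?_⟩
            have : y * (M + 2) = y * (M + 1) + y := by ring
            omega
  · obtain ⟨i, rfl⟩ : ∃ i, N = j + 1 + i := ⟨N - j - 1, by omega⟩
    have e1 : w * (j + 1 + i) = w * j + w + w * i := by ring
    have e2 : w * (i + 1) = w * i + w := by ring
    have hwi : Q w (j + 1 + i) (w + w * i) := by
      rcases Nat.eq_zero_or_pos i with rfl | hi
      · exact Or.inl (by simp)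
      · exact Or.inr ⟨i, hi, by omega, Or.inr rfl⟩
    have hwi' : Q w (j + 1 + i) (w - 1 + w * i) := by
      rcases Nat.eq_zero_or_pos i with rfl | hi
      · exact Or.inl (by simp)
      · exact Or.inr ⟨i, hi, by omega, Or.inl rfl⟩
    rcases h with rfl | rfl
    · refine ⟨w + w * i, w - 1 + w * (i + 1), w + w * (i + 1), by omega, by omega, by omega, hwi,
        Or.inr ⟨i + 1, by omega, by omega, Or.inl rfl⟩,
        Or.inr ⟨i + 1, by omega, by omega, Or.inr rfl⟩, ?_⟩
      rintro b (rfl | rfl | rfl)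
      · exact ⟨0, by simp, Or.inr (by omega)⟩
      · exact ⟨w - 1, by simp, Or.inr (by omega)⟩
      · exact ⟨w, by simp, Or.inr (by omega)⟩
    · refine ⟨w - 1 + w * i, w - 1 + w * (i + 1), w + w * (i + 1), by omega, by omega, by omega,
        hwi', Or.inr ⟨i + 1, by omega, by omega, Or.inl rfl⟩,
        Or.inr ⟨i + 1, by omega, by omega, Or.inr rfl⟩, ?_⟩
      rintro b (rfl | rfl | rfl)
      · exact ⟨0, by simp, Or.inr (by omega)⟩
      · exact ⟨w, by simp, Or.inr (by omega)⟩
      · exact ⟨w + 1, by simp, Or.inr (by omega)⟩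

/-- the set of natural numbers -/
def T (w N : ℕ) : Finset ℕ :=
  range (w + 1) ∪ ((Icc 1 (N - 1)).image (fun j => w - 1 + w * j) ∪
    (Icc 1 (N - 1)).image (fun j => w + w * j))

theorem mem_T {w N y : ℕ} (hN : 2 ≤ N) : y ∈ T w N ↔ Q w N y := by
  unfold T Q
  simp only [mem_union, mem_range, mem_image, mem_Icc]
  constructor
  · rintro (h | ⟨j, hj, rfl⟩ | ⟨j, hj, rfl⟩)
    · exact Or.inl (by omega)
    · exact Or.inr ⟨j, hj.1, by omega, Or.inl rfl⟩
    · exact Or.inr ⟨j, hj.1, by omega, Or.inr rfl⟩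
  · rintro (h | ⟨j, h1, h2, rfl | rfl⟩)
    · exact Or.inl (by omega)
    · exact Or.inr (Or.inl ⟨j, ⟨h1, by omega⟩, rfl⟩)
    · exact Or.inr (Or.inr ⟨j, ⟨h1, by omega⟩, rfl⟩)

theorem card_T_le {w N : ℕ} (hN : 2 ≤ N) : (T w N).card ≤ w + 2 * N := by
  have h1 := card_union_le (range (w + 1)) ((Icc 1 (N - 1)).image (fun j => w - 1 + w * j) ∪
    (Icc 1 (N - 1)).image (fun j => w + w * j))
  have h2 := card_union_le ((Icc 1 (N - 1)).image (fun j => w - 1 + w * j))
    ((Icc 1 (N - 1)).image (fun j => w + w * j))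
  have h3 : ((Icc 1 (N - 1)).image (fun j => w - 1 + w * j)).card ≤ (Icc 1 (N - 1)).card :=
    card_image_le
  have h4 : ((Icc 1 (N - 1)).image (fun j => w + w * j)).card ≤ (Icc 1 (N - 1)).card :=
    card_image_le
  rw [Nat.card_Icc] at h3 h4
  rw [card_range] at h1
  unfold T
  omega

theorem le_card_T {w N : ℕ} (hw : 4 ≤ w) : N - 1 ≤ (T w N).card := by
  have h1 : ((Icc 1 (N - 1)).image (fun j => w + w * j)).card = N - 1 := by
    rw [card_image_of_injective, Nat.card_Icc]
    · omega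
    · intro a b hab
      have h2 : w + w * a = w + w * b := hab
      exact Nat.eq_of_mul_eq_mul_left (by omega) (Nat.add_left_cancel h2)
  calc N - 1 = _ := h1.symm
    _ ≤ (T w N).card := card_le_card (by
        unfold T
        exact subset_union_right.trans subset_union_right)

theorem example_exists {w N p : ℕ} (hw : 4 ≤ w) (hN : 2 ≤ N) (hp : p = w * N + (w - 1)) :
    ∃ (A : Finset (ZMod p)) (F : Finset (ZMod p × ZMod p)),
      N - 1 ≤ A.card ∧ A.card ≤ w + 2 * N ∧ F ⊆ A ×ˢ A ∧ 3 ≤ A.card ∧ DegLe F (A.card - 3) ∧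
      ∀ B : Finset (ZMod p), (restrictedSum A B F).card ≤ 4 ∨ ¬ B ⊆ A := by
  classical
  have hp0 : p ≠ 0 := by
    have : w * 2 ≤ w * N := Nat.mul_le_mul_left _ hN
    omega
  have : NeZero p := ⟨hp0⟩
  set A : Finset (ZMod p) := (T w N).image (fun y : ℕ => (y : ZMod p)) with hA
  set S : Finset (ZMod p) := {0, ((w - 1 : ℕ) : ZMod p), ((w : ℕ) : ZMod p), ((w + 1 : ℕ) : ZMod p)}
    with hS
  set F : Finset (ZMod p × ZMod p) := (A ×ˢ A).filter (fun x => x.1 + x.2 ∉ S) with hF
  have hlt : ∀ y, Q w N y → y < p := fun y hy => by rw [hp]; exact Q_lt hw hN hy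
  have hinj : ∀ y z, Q w N y → Q w N z → (y : ZMod p) = (z : ZMod p) → y = z := by
    intro y z hy hz h
    have h1 := (ZMod.natCast_eq_natCast_iff' _ _ _).mp h
    rwa [Nat.mod_eq_of_lt (hlt y hy), Nat.mod_eq_of_lt (hlt z hz)] at h1
  have hcard : A.card = (T w N).card := by
    apply card_image_of_injOn
    intro y hy z hz h
    exact hinj y z ((mem_T hN).mp hy) ((mem_T hN).mp hz) h
  have hthree : ∀ a ∈ A, 3 ≤ (A.filter (fun b => a + b ∈ S)).card := by
    intro a ha
    rw [hA, mem_image] at ha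
    obtain ⟨y, hy, rfl⟩ := ha
    obtain ⟨b₁, b₂, b₃, h12, h13, h23, hQ1, hQ2, hQ3, hsum⟩ := three hw hN ((mem_T hN).mp hy)
    have hsub : ({(b₁ : ZMod p), (b₂ : ZMod p), (b₃ : ZMod p)} : Finset (ZMod p)) ⊆
        A.filter (fun b => (y : ZMod p) + b ∈ S) := by
      intro b hb
      simp only [mem_insert, mem_singleton] at hb
      obtain ⟨b', hb', hQ', rfl⟩ : ∃ b', (b' = b₁ ∨ b' = b₂ ∨ b' = b₃) ∧ Q w N b' ∧
          b = ((b' : ℕ) : ZMod p) := by
        rcases hb with rfl | rfl | rfl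
        · exact ⟨b₁, Or.inl rfl, hQ1, rfl⟩
        · exact ⟨b₂, Or.inr (Or.inl rfl), hQ2, rfl⟩
        · exact ⟨b₃, Or.inr (Or.inr rfl), hQ3, rfl⟩
      rw [mem_filter]
      refine ⟨mem_image.mpr ⟨b', (mem_T hN).mpr hQ', rfl⟩, ?_⟩
      obtain ⟨s, hs, hys⟩ := hsum b' hb'
      have hmem : ((s : ℕ) : ZMod p) ∈ S := by
        rw [hS]
        simp only [mem_insert, mem_singleton]
        rcases hs with rfl | rfl | rfl | rfl
        · left; simp
        · right; left; rfl
        · right; right; left; rfl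
        · right; right; right; rfl
      have hcast : (y : ZMod p) + (b' : ZMod p) = ((s : ℕ) : ZMod p) := by
        rcases hys with h | h
        · rw [← h]; push_cast; rfl
        · rw [← hp] at h
          have h2 := congrArg (fun x : ℕ => (x : ZMod p)) h
          simpa using h2
      rw [hcast]
      exact hmem
    have h3 : ({(b₁ : ZMod p), (b₂ : ZMod p), (b₃ : ZMod p)} : Finset (ZMod p)).card = 3 := by
      rw [card_eq_three]
      exact ⟨_, _, _, fun h => h12 (hinj _ _ hQ1 hQ2 h), fun h => h13 (hinj _ _ hQ1 hQ3 h),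
        fun h => h23 (hinj _ _ hQ2 hQ3 h), rfl⟩
    rw [← h3]
    exact card_le_card hsub
  have hne : (0 : ZMod p) ∈ A := by
    rw [hA, mem_image]
    exact ⟨0, (mem_T hN).mpr (Or.inl (by omega)), by simp⟩
  have h3A : 3 ≤ A.card := (hthree 0 hne).trans (card_le_card (filter_subset _ _))
  have hdeg : ∀ a ∈ A, (A.filter (fun b => a + b ∉ S)).card ≤ A.card - 3 := by
    intro a ha
    have h1 := card_filter_add_card_filter_not (s := A) (fun b => a + b ∈ S)
    have h2 := hthree a ha
    omega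
  refine ⟨A, F, ?_, ?_, filter_subset _ _, h3A, ⟨?_, ?_⟩, ?_⟩
  · rw [hcard]; exact le_card_T hw
  · rw [hcard]; exact card_T_le hN
  · intro a
    by_cases ha : a ∈ A
    · refine le_trans ?_ (hdeg a ha)
      apply card_le_card_of_injOn (fun x => x.2)
      · intro x hx
        rw [mem_coe, mem_filter, hF, mem_filter, mem_product] at hx
        rw [mem_coe, mem_filter]
        refine ⟨hx.1.1.2, ?_⟩
        rw [← hx.2]
        exact hx.1.2
      · intro x hx y hy hxy
        rw [mem_coe, mem_filter] at hx hy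
        exact Prod.ext (hx.2.trans hy.2.symm) hxy
    · have : F.filter (fun x => x.1 = a) = ∅ := by
        rw [filter_eq_empty_iff]
        intro x hx hxa
        rw [hF, mem_filter, mem_product] at hx
        exact ha (hxa ▸ hx.1.1)
      rw [this]; simp
  · intro b
    by_cases hb : b ∈ A
    · refine le_trans ?_ (hdeg b hb)
      apply card_le_card_of_injOn (fun x => x.1)
      · intro x hx
        rw [mem_coe, mem_filter, hF, mem_filter, mem_product] at hx
        rw [mem_coe, mem_filter]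
        refine ⟨hx.1.1.1, ?_⟩
        rw [← hx.2, add_comm]
        exact hx.1.2
      · intro x hx y hy hxy
        rw [mem_coe, mem_filter] at hx hy
        exact Prod.ext hxy (hx.2.trans hy.2.symm)
    · have : F.filter (fun x => x.2 = b) = ∅ := by
        rw [filter_eq_empty_iff]
        intro x hx hxb
        rw [hF, mem_filter, mem_product] at hx
        exact hb (hxb ▸ hx.1.2)
      rw [this]; simp
  · intro B
    by_cases hB : B ⊆ A
    · left
      have h1 : restrictedSum A B F ⊆ S := by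
        intro x hx
        unfold restrictedSum at hx
        rw [mem_image] at hx
        obtain ⟨y, hy, rfl⟩ := hx
        rw [mem_filter, mem_product, hF, mem_filter, mem_product] at hy
        by_contra hc
        exact hy.2 ⟨⟨hy.1.1, hB hy.1.2⟩, hc⟩
      refine (card_le_card h1).trans ?_
      rw [hS]
      exact card_le_four
    · exact Or.inr hB

end Pool.Agent.X185.RS
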